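import Pool.Agent.H176.DT.Stm5

/-!
Etale local extensions of local rings in fields: descent of ideals, unramifiedness,
incomparability.
-/

set_option autoImplicit false

universe u

namespace Pool.Agent.Y824.DT5

open Pool.Agent.W418.LU2 Pool.Agent.H176.DT IsLocalRing Polynomial

section abs

variable {P P1 : Type u} [CommRing P] [CommRing P1] {inc : P →+* P1} {e : P[X] →+* P1}

/-- polynomials with coefficients in an ideal -/
theorem map_mem (hC : ∀ a, e (C a) = inc a) {I : Ideal P} {f : P[X]} (hf : ∀ i, f.coeff i ∈ I) :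
    e f ∈ I.map inc := by
  rw [f.as_sum_range_C_mul_X_pow, map_sum]
  refine Ideal.sum_mem _ fun i _ => ?_
  rw [map_mul, hC]
  exact Ideal.mul_mem_right _ _ (Ideal.mem_map_of_mem _ (hf i))

/-- the remainder -/
theorem e_mod {g : P[X]} (hg0 : e g = 0) (f : P[X]) : e (f %ₘ g) = e f := by
  have h := congrArg e (modByMonic_add_div f g)
  rw [map_add, map_mul, hg0, zero_mul, add_zero] at h
  exact h

theorem coeff_mod {g : P[X]} (hg : g.Monic) {I : Ideal P} {f : P[X]} (hf : ∀ i, f.coeff i ∈ I)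
    (i : ℕ) : (f %ₘ g).coeff i ∈ I := by
  have h1 : f.map (Ideal.Quotient.mk I) = 0 := by
    ext j
    rw [coeff_map, coeff_zero]
    exact Ideal.Quotient.eq_zero_iff_mem.2 (hf j)
  have h2 : (f %ₘ g).map (Ideal.Quotient.mk I) = 0 := by
    rw [map_modByMonic _ hg, h1, zero_modByMonic]
  rw [← Ideal.Quotient.eq_zero_iff_mem, ← coeff_map, h2, coeff_zero]

variable [IsLocalRing P1]

/-- a polynomial whose value is a unit has a coefficient which is a unit -/
theorem unit_coeff (hC : ∀ a, e (C a) = inc a) (hloc : ∀ a, IsUnit (inc a) → IsUnit a) {s : P[X]}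
    (hs : IsUnit (e s)) : ∃ i, IsUnit (s.coeff i) := by
  by_contra hcon
  push Not at hcon
  have h1 : e s ∈ maximalIdeal P1 := by
    rw [s.as_sum_range_C_mul_X_pow, map_sum]
    refine Ideal.sum_mem _ fun i _ => ?_
    rw [map_mul, hC]
    refine Ideal.mul_mem_right _ _ ?_
    rw [mem_maximalIdeal, mem_nonunits_iff]
    exact fun h => hcon i (hloc _ h)
  exact (mem_nonunits_iff.1 ((mem_maximalIdeal _).1 h1)) hs

/-- descent of ideals -/
theorem abs_desc [Nontrivial P] {g : P[X]} (hC : ∀ a, e (C a) = inc a)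
    (hloc : ∀ a, IsUnit (inc a) → IsUnit a) (hg : g.Monic) (hg0 : e g = 0)
    (hgen : ∀ z : P1, ∃ c s : P[X], IsUnit (e s) ∧ z * e s = e c)
    (huniq : ∀ (z : P) (c s : P[X]), c.degree < g.degree → s.degree < g.degree →
      inc z * e s = e c → ∀ i, z * s.coeff i = c.coeff i)
    (I : Ideal P) (z : P) (hz : inc z ∈ I.map inc) : z ∈ I := by
  have key : ∀ w ∈ I.map inc, ∃ c s : P[X], (∀ i, c.coeff i ∈ I) ∧ IsUnit (e s) ∧
      w * e s = e c := by
    intro w hw
    unfold Ideal.map at hw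
    induction hw using Submodule.span_induction with
    | mem x hx =>
      obtain ⟨a, ha, rfl⟩ := hx
      refine ⟨C a, 1, fun i => ?_, by rw [map_one]; exact isUnit_one,
        by rw [map_one, mul_one, hC]⟩
      rw [coeff_C]
      split_ifs
      · exact ha
      · exact I.zero_mem
    | zero => exact ⟨0, 1, fun i => by simp, by simp, by simp⟩
    | add x y _ _ hx hy =>
      obtain ⟨c, s, hc, hs, h⟩ := hx
      obtain ⟨c', s', hc', hs', h'⟩ := hy
      refine ⟨c * s' + c' * s, s * s', ?_, ?_, ?_⟩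
      · rw [← Ideal.mem_map_C_iff] at hc hc' ⊢
        exact Ideal.add_mem _ (Ideal.mul_mem_right _ _ hc) (Ideal.mul_mem_right _ _ hc')
      · rw [map_mul]
        exact hs.mul hs'
      · rw [map_add, map_mul, map_mul, map_mul, ← h, ← h']
        ring
    | smul r x _ hx =>
      obtain ⟨c, s, hc, hs, h⟩ := hx
      obtain ⟨c', s', hs', h'⟩ := hgen r
      refine ⟨c' * c, s' * s, ?_, ?_, ?_⟩
      · rw [← Ideal.mem_map_C_iff] at hc ⊢
        exact Ideal.mul_mem_left _ _ hc
      · rw [map_mul]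
        exact hs'.mul hs
      · rw [map_mul, map_mul, ← h, ← h', smul_eq_mul]
        ring
  obtain ⟨c, s, hc, hs, h⟩ := key _ hz
  rw [← e_mod hg0 s, ← e_mod hg0 c] at h
  rw [← e_mod hg0 s] at hs
  obtain ⟨i, hi⟩ := unit_coeff hC hloc hs
  have h1 := huniq z _ _ (degree_modByMonic_lt c hg) (degree_modByMonic_lt s hg) h i
  have h2 : z * (s %ₘ g).coeff i ∈ I := by
    rw [h1]
    exact coeff_mod hg hc i
  obtain ⟨y, hy⟩ := hi.exists_right_inv
  have h3 : z = z * (s %ₘ g).coeff i * y := by rw [mul_assoc, hy, mul_one]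
  rw [h3]
  exact Ideal.mul_mem_right _ _ h2

/-- unramifiedness -/
theorem abs_unr [IsLocalRing P] {g : P[X]} (hC : ∀ a, e (C a) = inc a)
    (hloc : ∀ a, IsUnit (inc a) → IsUnit a) (hg0 : e g = 0)
    (hder : IsUnit (e (derivative g)))
    (hgen : ∀ z : P1, ∃ c s : P[X], IsUnit (e s) ∧ z * e s = e c)
    (z : P1) (hz : ¬ IsUnit z) : z ∈ (maximalIdeal P).map inc := by
  obtain ⟨c, s, hs, h⟩ := hgen z
  have hec : e c ∈ maximalIdeal P1 := by
    rw [← h]
    exact Ideal.mul_mem_right _ _ hz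
  suffices hsuff : e c ∈ (maximalIdeal P).map inc by
    obtain ⟨y, hy⟩ := hs.exists_right_inv
    have h1 : z = e c * y := by rw [← h, mul_assoc, hy, mul_one]
    rw [h1]
    exact Ideal.mul_mem_right _ _ hsuff
  have hle : (maximalIdeal P).map inc ≤ maximalIdeal P1 := by
    rw [Ideal.map_le_iff_le_comap]
    intro a ha
    rw [Ideal.mem_comap, mem_maximalIdeal, mem_nonunits_iff]
    exact fun h => ha (hloc a h)
  let ρ : P[X] →+* (ResidueField P)[X] := mapRingHom (residue P)
  have hρs : Function.Surjective ρ := Polynomial.map_surjective _ residue_surjective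
  let N : Ideal P[X] := (maximalIdeal P1).comap e
  obtain ⟨γ, hγ⟩ := (IsPrincipalIdealRing.principal (N.map ρ)).principal
  have hγN : γ ∈ N.map ρ := by
    rw [hγ]
    exact Submodule.mem_span_singleton_self γ
  obtain ⟨k0, hk0, hk0γ⟩ := (Ideal.mem_map_iff_of_surjective ρ hρs).1 hγN
  have hdiv : ∀ f ∈ N, ∃ r ε : P[X], f = k0 * r + ε ∧ ∀ i, ε.coeff i ∈ maximalIdeal P := by
    intro f hf
    have h1 : ρ f ∈ N.map ρ := Ideal.mem_map_of_mem _ hf
    rw [hγ] at h1
    obtain ⟨r', hr'⟩ := Ideal.mem_span_singleton'.1 h1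
    obtain ⟨r, rfl⟩ := hρs r'
    refine ⟨r, f - k0 * r, by ring, fun i => ?_⟩
    have h2 : ρ (f - k0 * r) = 0 := by
      rw [map_sub, map_mul, ← hr', hk0γ]
      ring
    rw [← residue_eq_zero_iff, ← coeff_map]
    change (ρ (f - k0 * r)).coeff i = 0
    rw [h2, coeff_zero]
  obtain ⟨k, ε, hgk, hε⟩ := hdiv g (by
    change e g ∈ maximalIdeal P1
    rw [hg0]
    exact Ideal.zero_mem _)
  have hε' : ∀ i, (derivative ε).coeff i ∈ maximalIdeal P := by
    intro i
    rw [coeff_derivative]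
    exact Ideal.mul_mem_right _ _ (hε _)
  have hk : IsUnit (e k) := by
    by_contra hcon
    have h1 : e (derivative g) ∈ maximalIdeal P1 := by
      rw [hgk, derivative_add, derivative_mul, map_add, map_add, map_mul, map_mul]
      refine Ideal.add_mem _ (Ideal.add_mem _ (Ideal.mul_mem_left _ _ hcon) ?_)
        (hle (map_mem hC hε'))
      exact Ideal.mul_mem_right _ _ hk0
    exact h1 hder
  have hek0 : e k0 ∈ (maximalIdeal P).map inc := by
    obtain ⟨y, hy⟩ := hk.exists_right_inv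
    have h1 : e k0 * e k + e ε = 0 := by rw [← map_mul, ← map_add, ← hgk, hg0]
    have h2 : e k0 = -(e ε) * y := by
      rw [← eq_neg_of_add_eq_zero_left h1, mul_assoc, hy, mul_one]
    rw [h2]
    exact Ideal.mul_mem_right _ _ (Ideal.neg_mem_iff _ |>.2 (map_mem hC hε))
  obtain ⟨r, ε2, hc2, hε2⟩ := hdiv c hec
  rw [hc2, map_add, map_mul]
  exact Ideal.add_mem _ (Ideal.mul_mem_right _ _ hek0) (map_mem hC hε2)

/-- incomparability -/
theorem abs_inc {g : P[X]} (hC : ∀ a, e (C a) = inc a) (hg : g.Monic) (hg0 : e g = 0)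
    (hgen : ∀ z : P1, ∃ c s : P[X], IsUnit (e s) ∧ z * e s = e c)
    (p q : Ideal P1) (hp : p.IsPrime) (hpq : p < q) : p.comap inc < q.comap inc := by
  obtain ⟨hle, w, hwq, hwp⟩ := SetLike.lt_iff_le_and_exists.1 hpq
  obtain ⟨c, s, hs, h⟩ := hgen w
  let : Algebra P P1 := inc.toAlgebra
  have hX : IsIntegral P (e X) := by
    refine ⟨g, hg, ?_⟩
    change eval₂ inc (e X) g = 0
    rw [← hg0]
    have h1 : e = eval₂RingHom inc (e X) := by
      apply Polynomial.ringHom_ext
      · intro a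
        rw [hC, coe_eval₂RingHom, eval₂_C]
      · rw [coe_eval₂RingHom, eval₂_X]
    conv_rhs => rw [h1]
    rfl
  have hint : ∀ f : P[X], IsIntegral P (e f) := by
    intro f
    rw [f.as_sum_range_C_mul_X_pow, map_sum]
    refine IsIntegral.sum _ fun i _ => ?_
    rw [map_mul, map_pow, hC]
    exact (isIntegral_algebraMap (x := f.coeff i)).mul (hX.pow i)
  have hcq : e c ∈ q := by
    rw [← h]
    exact Ideal.mul_mem_right _ _ hwq
  have hcp : e c ∉ p := by
    intro hc
    rw [← h] at hc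
    rcases hp.mem_or_mem hc with h1 | h1
    · exact hwp h1
    · exact hp.ne_top (Ideal.eq_top_of_isUnit_mem _ h1 hs)
  exact Ideal.comap_lt_comap_of_integral_mem_sdiff hle ⟨hcq, hcp⟩ (hint c)

end abs

theorem loc_V {K : Type u} [Field K] (V : ValuationSubring K) : Loc V.toSubring := by
  intro a ha
  have key : ∀ b : V, IsUnit b → (b : K) ≠ 0 ∧ (b : K)⁻¹ ∈ V := by
    intro b hb
    obtain ⟨y, hy⟩ := hb.exists_right_inv
    have h1 : (b : K) * y = 1 := congrArg Subtype.val hy
    refine ⟨left_ne_zero_of_mul_eq_one h1, ?_⟩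
    rw [← eq_inv_of_mul_eq_one_right h1]
    exact y.2
  rcases isUnit_or_isUnit_one_sub_self (⟨a, ha⟩ : V) with h | h
  · exact Or.inl (key _ h)
  · exact Or.inr (key _ h)

/-- valuation rings are integrally closed -/
theorem root_mem {F F1 : Type u} [Field F] [Field F1] [Algebra F F1] (V : ValuationSubring F1)
    (ζ : F1) (B : Subring F) (h : F[X]) (hB : B ≤ (V.comap (algebraMap F F1)).toSubring)
    (hm : h.Monic) (hc : ∀ i, h.coeff i ∈ B) (h0 : aeval ζ h = 0) : ζ ∈ V := by
  have hcs : (↑h.coeffs : Set F) ⊆ B := by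
    intro x hx
    obtain ⟨i, -, rfl⟩ := mem_coeffs_iff.1 (Finset.mem_coe.1 hx)
    exact hc i
  let φ : B →+* V := ((algebraMap F F1).comp B.subtype).codRestrict V.toSubring fun b => hB b.2
  have h1 : IsIntegral V ζ := by
    refine ⟨(h.toSubring B hcs).map φ, ((monic_toSubring _ _ _).2 hm).map φ, ?_⟩
    rw [eval₂_map]
    have h2 : (algebraMap V F1).comp φ = (algebraMap F F1).comp B.subtype := rfl
    rw [h2, ← eval₂_map, map_toSubring]
    exact h0
  obtain ⟨y, hy⟩ := (IsIntegrallyClosed.isIntegral_iff (R := V) (K := F1)).1 h1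
  rw [← hy]
  exact y.2

/-- **Etale local extensions.** -/
theorem flat : S5_flat.{u} := by
  intro F F1 _ _ _ V ζ B h hB hm hc h0 hder hmin P P1 hP hP1 inc hinc
  have hζV := root_mem V ζ B h hB hm hc h0
  obtain ⟨A, hA⟩ : ∃ A : Subring F, A = (V.comap (algebraMap F F1)).toSubring := ⟨_, rfl⟩
  obtain ⟨C1, hC1⟩ : ∃ C1 : Subring F1,
    C1 = Subring.closure ((B.map (algebraMap F F1) : Set F1) ∪ {ζ}) := ⟨_, rfl⟩
  rw [← hA] at hP hB
  rw [← hC1] at hP1
  have hmemA : ∀ x : F, x ∈ A ↔ algebraMap F F1 x ∈ V := by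
    intro x
    rw [hA]
    rfl
  have hBC : ∀ b ∈ B, algebraMap F F1 b ∈ C1 := fun b hb => by
    rw [hC1]
    exact Subring.subset_closure (Or.inl ⟨b, hb, rfl⟩)
  have hζC : ζ ∈ C1 := by
    rw [hC1]
    exact Subring.subset_closure (Or.inr rfl)
  have hCV : C1 ≤ V.toSubring := by
    rw [hC1, Subring.closure_le]
    rintro x (⟨b, hb, rfl⟩ | rfl)
    · exact (hmemA b).1 (hB hb)
    · exact hζV
  have hBP : B ≤ P := by
    rw [hP]
    exact le_lo _ _
  have hCP1 : C1 ≤ P1 := by
    rw [hP1]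
    exact le_lo _ _
  have hPu : ∀ x : P, IsUnit x ↔ (x : F) ≠ 0 ∧ (x : F)⁻¹ ∈ A := by
    subst hP
    exact fun x => isUnit_lo_iff hB x
  have hP1u : ∀ x : P1, IsUnit x ↔ (x : F1) ≠ 0 ∧ (x : F1)⁻¹ ∈ V := by
    subst hP1
    exact fun x => isUnit_lo_iff hCV x
  have hPl : IsLocalRing P := by
    rw [hP]
    exact isLocalRing_lo (by rw [hA]; exact loc_V _) hB
  have hP1l : IsLocalRing P1 := by
    rw [hP1]
    exact isLocalRing_lo (loc_V V) hCV
  have hloc : ∀ a, IsUnit (inc a) → IsUnit a := by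
    intro a ha
    rw [hP1u, hinc] at ha
    rw [hPu, hmemA, map_inv₀]
    exact ⟨fun h => ha.1 (by rw [h, map_zero]), ha.2⟩
  have hcs : (↑h.coeffs : Set F) ⊆ P := by
    intro x hx
    obtain ⟨i, -, rfl⟩ := mem_coeffs_iff.1 (Finset.mem_coe.1 hx)
    exact hBP (hc i)
  obtain ⟨g, hg⟩ : ∃ g : P[X], g = h.toSubring P hcs := ⟨_, rfl⟩
  have hgm : g.Monic := by
    rw [hg]
    exact (monic_toSubring _ _ _).2 hm
  have hgd : g.degree = h.degree := by
    rw [hg]
    exact degree_toSubring _ _ _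
  have hgmap : g.map P.subtype = h := by
    rw [hg]
    exact map_toSubring _ _ _
  let e : P[X] →+* P1 := eval₂RingHom inc ⟨ζ, hCP1 hζC⟩
  have heC : ∀ a, e (C a) = inc a := fun a => eval₂_C _ _
  have heX : e X = ⟨ζ, hCP1 hζC⟩ := eval₂_X _ _
  have hcomp : P1.subtype.comp inc = (algebraMap F F1).comp P.subtype := by
    apply RingHom.ext
    intro a
    exact hinc a
  have hev : ∀ f : P[X], (e f : F1) = aeval ζ (f.map P.subtype) := by
    intro f
    have h1 : (e f : F1) = P1.subtype (eval₂ inc ⟨ζ, hCP1 hζC⟩ f) := rfl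
    rw [h1, hom_eval₂, hcomp, ← eval₂_map]
    rfl
  have hg0 : e g = 0 := by
    apply Subtype.ext
    rw [hev, hgmap, h0]
    rfl
  have hgder : IsUnit (e (derivative g)) := by
    rw [hP1u, hev, ← derivative_map, hgmap]
    refine ⟨fun h1 => ?_, ?_⟩
    · rw [h1, map_zero] at hder
      exact zero_ne_one hder
    · rw [← V.valuation_le_one_iff, map_inv₀, hder, inv_one]
  have hgen : ∀ z : P1, ∃ c s : P[X], IsUnit (e s) ∧ z * e s = e c := by
    have key : ∀ y ∈ C1, ∃ f : P[X], (e f : F1) = y := by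
      intro y hy
      rw [hC1] at hy
      induction hy using Subring.closure_induction with
      | mem y hy =>
        rcases hy with ⟨b, hb, rfl⟩ | rfl
        · exact ⟨C ⟨b, hBP hb⟩, by rw [heC, hinc]⟩
        · exact ⟨X, by rw [heX]⟩
      | zero => exact ⟨0, by rw [map_zero]; rfl⟩
      | one => exact ⟨1, by rw [map_one]; rfl⟩
      | add a b _ _ ha hb =>
        obtain ⟨f, rfl⟩ := ha
        obtain ⟨g, rfl⟩ := hb
        exact ⟨f + g, by rw [map_add]; rfl⟩
      | neg a _ ha =>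
        obtain ⟨f, rfl⟩ := ha
        exact ⟨-f, by rw [map_neg]; rfl⟩
      | mul a b _ _ ha hb =>
        obtain ⟨f, rfl⟩ := ha
        obtain ⟨g, rfl⟩ := hb
        exact ⟨f * g, by rw [map_mul]; rfl⟩
    intro z
    have hz : (z : F1) ∈ lo V.toSubring C1 := hP1 ▸ z.2
    obtain ⟨a, ha, b, hb, hb0, hbV, hab⟩ := hz
    obtain ⟨c, hc'⟩ := key a ha
    obtain ⟨s, hs⟩ := key b hb
    refine ⟨c, s, (hP1u _).2 (by rw [hs]; exact ⟨hb0, hbV⟩), Subtype.ext ?_⟩
    change (z : F1) * (e s : F1) = e c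
    rw [hs, hc', hab, inv_mul_cancel_right₀ hb0]
  have huniq : ∀ (z : F) (c s : P[X]), c.degree < g.degree → s.degree < g.degree →
      algebraMap F F1 z * (e s : F1) = e c → ∀ i, z * (s.coeff i : F) = c.coeff i := by
    intro z c s hcd hsd heq i
    rw [hgd] at hcd hsd
    have h1 : (C z * s.map P.subtype - c.map P.subtype).degree < h.degree := by
      refine (degree_sub_le _ _).trans_lt (max_lt ?_ ?_)
      · rw [← smul_eq_C_mul]
        exact ((degree_smul_le _ _).trans degree_map_le).trans_lt hsd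
      · exact degree_map_le.trans_lt hcd
    have h2 := hmin _ h1 (by
      rw [map_sub, map_mul, aeval_C, ← hev, ← hev, heq, sub_self])
    have h3 := congrArg (fun f : F[X] => f.coeff i) h2
    simp only [coeff_sub, coeff_C_mul, coeff_map, coeff_zero] at h3
    exact sub_eq_zero.1 h3
  refine ⟨fun z hz => ?_, fun I z hz => ?_, fun z hz => ?_, fun p q hp _ hpq => ?_⟩
  · obtain ⟨c, s, hs, hcs'⟩ := hgen ⟨_, hz⟩
    rw [← e_mod hg0 s, ← e_mod hg0 c] at hcs'
    rw [← e_mod hg0 s] at hs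
    obtain ⟨i, hi⟩ := unit_coeff heC hloc hs
    have h1 := huniq z _ _ (degree_modByMonic_lt c hgm) (degree_modByMonic_lt s hgm)
      (congrArg Subtype.val hcs') i
    obtain ⟨y, hy⟩ := hi.exists_right_inv
    have hy' : (((s %ₘ g).coeff i : P) : F) * y = 1 := congrArg Subtype.val hy
    have h3 : z = (((c %ₘ g).coeff i * y : P) : F) := by
      change z = (((c %ₘ g).coeff i : P) : F) * y
      rw [← h1, mul_assoc, hy', mul_one]
    rw [h3]
    exact ((c %ₘ g).coeff i * y).2
  · refine abs_desc heC hloc hgm hg0 hgen (fun z c s hcd hsd heq i => Subtype.ext ?_) I z hz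
    refine huniq z c s hcd hsd ?_ i
    rw [← hinc]
    exact congrArg Subtype.val heq
  · have h1 := abs_unr heC hloc hg0 hgder hgen z hz
    have h2 : maximalIdeal P ≤ Ideal.span {y : P | ¬ IsUnit y} :=
      fun y hy => Ideal.subset_span hy
    exact Ideal.map_mono h2 h1
  · exact abs_inc heC hgm hg0 hgen p q hp hpq

end Pool.Agent.Y824.DT5
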